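import Pool.Agent.H86.PoB

set_option autoImplicit false

namespace Pool.Agent.Results.MP_cc6bdf_an.Exact

open Filter Topology Pool.Agent.H86.Pmc
open scoped ENNReal

theorem result :
    c5 = 1 / 2 ∧
    Tendsto (fun n : ℕ => ENNReal.ofReal √(n : ℝ) * worstZ 0 1 n) atTop (𝓝 (1 / 2)) ∧
    ∀ n : ℕ, 2 ≤ n → ENNReal.ofReal (1 / (2 * √(n : ℝ) + 8)) ≤ worstZ 0 1 n ∧
      worstZ 0 1 n ≤ ENNReal.ofReal (1 / (2 * √(n : ℝ) - 2)) := by
  have key : ∀ n : ℕ, ENNReal.ofReal (1 / (2 * √(n : ℝ) + 8)) ≤ worstZ 0 1 n := by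
    intro n
    have hs := Nat.lt_succ_sqrt n
    have hs' : (Nat.sqrt n : ℝ) ≤ √(n : ℝ) := Real.nat_sqrt_le_real_sqrt
    obtain ⟨m, hm1, hm2, hm3⟩ : ∃ m : ℕ, 1 ≤ m ∧ Nat.sqrt n + 3 ≤ 2 * m ∧ 2 * m ≤ Nat.sqrt n + 4 :=
      ⟨Nat.sqrt n / 2 + 2, by omega, by omega, by omega⟩
    refine le_trans (ENNReal.ofReal_le_ofReal ?_) (lowerZ (n := n) hm1 ?_)
    · have e1 : (2 * m : ℝ) ≤ Nat.sqrt n + 4 := by exact_mod_cast hm3
      have e2 : (0 : ℝ) < m := by exact_mod_cast hm1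
      rw [div_div]
      exact one_div_le_one_div_of_le (by positivity) (by linarith)
    · have e : (Nat.sqrt n + 3) * (Nat.sqrt n + 3) ≤ (2 * m) * (2 * m) := Nat.mul_le_mul hm2 hm2
      simp only [Nat.succ_eq_add_one] at hs
      nlinarith
  have one : ∀ n : ℕ, 2 ≤ n → 1 < √(n : ℝ) := fun n hn => by
    rw [Real.lt_sqrt zero_le_one]
    have : (2 : ℝ) ≤ n := by exact_mod_cast hn
    linarith
  have key2 : ∀ n : ℕ, 2 ≤ n → worstZ 0 1 n ≤ ENNReal.ofReal (1 / (2 * √(n : ℝ) - 2)) := by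
    intro n hn
    obtain ⟨k, rfl⟩ : ∃ k, n = k + 1 := ⟨n - 1, by omega⟩
    have hs := Nat.lt_succ_sqrt k
    have hs' := Nat.sqrt_le k
    simp only [Nat.succ_eq_add_one] at hs
    refine (upperZ (p := Nat.sqrt k) (Nat.sqrt_pos.2 (by omega)) (by omega)).trans
      (ENNReal.ofReal_le_ofReal (one_div_le_one_div_of_le (by linarith [one _ hn]) ?_))
    have : √((k + 1 : ℕ) : ℝ) ≤ (Nat.sqrt k : ℝ) + 1 := by
      rw [Real.sqrt_le_left (by positivity), sq]
      exact_mod_cast hs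
    linarith
  have hs : Tendsto (fun n : ℕ => √(n : ℝ)) atTop atTop :=
    Real.tendsto_sqrt_atTop.comp tendsto_natCast_atTop_atTop
  have h1 : Tendsto (fun n : ℕ => √(n : ℝ) * (1 / (2 * √(n : ℝ) + 8))) atTop (𝓝 (1 / 2)) := by
    have h0 : Tendsto (fun n : ℕ => (1 : ℝ) / 2 - 4 / (2 * √(n : ℝ) + 8)) atTop
        (𝓝 (1 / 2 - 0)) := by
      refine tendsto_const_nhds.sub (Tendsto.div_atTop tendsto_const_nhds ?_)
      exact tendsto_atTop_add_const_right _ _ (Tendsto.const_mul_atTop (by norm_num) hs)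
    rw [sub_zero] at h0
    refine h0.congr fun n => ?_
    have : (0 : ℝ) < 2 * √(n : ℝ) + 8 := by positivity
    field_simp
    ring
  have h1' : Tendsto (fun n : ℕ => √(n : ℝ) * (1 / (2 * √(n : ℝ) - 2))) atTop (𝓝 (1 / 2)) := by
    have h0 : Tendsto (fun n : ℕ => (1 : ℝ) / 2 + 1 / (2 * √(n : ℝ) + -2)) atTop
        (𝓝 (1 / 2 + 0)) := by
      refine tendsto_const_nhds.add (Tendsto.div_atTop tendsto_const_nhds ?_)
      exact tendsto_atTop_add_const_right _ _ (Tendsto.const_mul_atTop (by norm_num) hs)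
    rw [add_zero] at h0
    refine h0.congr' ?_
    filter_upwards [eventually_ge_atTop 2] with n hn
    have e1 : 2 * √(n : ℝ) - 2 ≠ 0 := by linarith [one n hn]
    rw [← sub_eq_add_neg, mul_one_div, eq_div_iff e1, add_mul, div_mul_cancel₀ _ e1]
    ring
  have h3 : ENNReal.ofReal (1 / 2) = 1 / 2 := by
    rw [ENNReal.ofReal_div_of_pos (by norm_num)]; simp
  have lim : Tendsto (fun n : ℕ => ENNReal.ofReal √(n : ℝ) * worstZ 0 1 n) atTop (𝓝 (1 / 2)) := by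
    rw [← h3]
    refine tendsto_of_tendsto_of_tendsto_of_le_of_le' (ENNReal.tendsto_ofReal h1)
      (ENNReal.tendsto_ofReal h1') (Eventually.of_forall fun n => ?_) ?_
    · rw [ENNReal.ofReal_mul (Real.sqrt_nonneg _)]
      gcongr
      exact key n
    · filter_upwards [eventually_ge_atTop 2] with n hn
      rw [ENNReal.ofReal_mul (Real.sqrt_nonneg _)]
      gcongr
      exact key2 n hn
  exact ⟨lim.limsup_eq, lim, fun n hn => ⟨key n, key2 n hn⟩⟩

end Pool.Agent.Results.MP_cc6bdf_an.Exact
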